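import Mathlib
import Pool.Agent.N733.TG.K

set_option autoImplicit false

/-! Uniform form of the tool of helper733 (`N733/TG/K.lean`): the bound for the number of exceptional `m` depends on the set
of exceptions only through its counting function (helper760). -/

namespace Pool.Agent.N760.TG

open Finset Classical
open Pool.Agent.N733.TG (LM Expanding NearG step_sum avoid)

/-- the count of the `v` with `G v` near a height of an element of `S`, uniformly in `S` -/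
lemma nearG_count_unif {T : Type*} (h : T → ℝ) {G : ℕ → ℝ} {d : ℝ} (hG : Expanding G d) {s κ : ℝ} (hs : 0 ≤ s)
    (hκ : 0 ≤ κ) (hκ1 : κ ≤ 1) (C : ℝ) :
    ∃ K : ℝ, ∀ S : Set T, (∀ X : ℝ, 1 ≤ X →
      {t | t ∈ S ∧ h t ≤ X}.Finite ∧ ({t | t ∈ S ∧ h t ≤ X}.ncard : ℝ) ≤ C * X ^ s) →
      ∀ X : ℕ, 1 ≤ X → (((Icc 1 X).filter (fun v => v ∈ NearG S h G κ)).card : ℝ) ≤ K * (X : ℝ) ^ (d * s + κ) := by
  obtain ⟨hd, ⟨a, ha, hstep⟩, ⟨C₁, hC₁⟩⟩ := hG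
  obtain ⟨C₂, hC₂⟩ : ∃ C₂ : ℝ, C₂ = |C₁| + 1 := ⟨_, rfl⟩
  have hC₂1 : 1 ≤ C₂ := by rw [hC₂]; linarith [abs_nonneg C₁]
  refine ⟨|C| * C₂ ^ s * (2 / a + 1), fun S hC X hX => ?_⟩
  have hX1 : (1 : ℝ) ≤ X := by exact_mod_cast hX
  obtain ⟨Z, hZ⟩ : ∃ Z : ℝ, Z = C₂ * (X : ℝ) ^ d := ⟨_, rfl⟩
  have hXd : (1 : ℝ) ≤ (X : ℝ) ^ d := Real.one_le_rpow hX1 (by linarith)
  have hZ1 : 1 ≤ Z := by
    rw [hZ]
    exact one_le_mul_of_one_le_of_one_le hC₂1 hXd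
  obtain ⟨hfin, hcard⟩ := hC Z hZ1
  have hXκ : (1 : ℝ) ≤ (X : ℝ) ^ κ := Real.one_le_rpow hX1 hκ
  obtain ⟨W, hW⟩ : ∃ W : T → Finset ℕ, W = fun t : T => (Icc 1 X).filter (fun v : ℕ => |h t - G v| ≤ (X : ℝ) ^ κ) :=
    ⟨_, rfl⟩
  have hsub : (Icc 1 X).filter (fun v => v ∈ NearG S h G κ) ⊆ hfin.toFinset.biUnion W := by
    intro v hv
    rw [mem_filter, mem_Icc] at hv
    obtain ⟨⟨hv1, hvX⟩, t, htS, ht⟩ := hv
    have hv1' : (1 : ℝ) ≤ v := by exact_mod_cast hv1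
    have hvX' : (v : ℝ) ≤ X := by exact_mod_cast hvX
    have e1 : (v : ℝ) ^ κ ≤ (X : ℝ) ^ κ := Real.rpow_le_rpow (by linarith) hvX' hκ
    rw [mem_biUnion]
    refine ⟨t, ?_, ?_⟩
    · rw [Set.Finite.mem_toFinset]
      refine ⟨htS, ?_⟩
      have e3 := (abs_le.1 ht).2
      have e4 : G v ≤ |C₁| * (X : ℝ) ^ d := by
        calc G v ≤ C₁ * (v : ℝ) ^ d := hC₁ v hv1
          _ ≤ |C₁| * (v : ℝ) ^ d := mul_le_mul_of_nonneg_right (le_abs_self _) (by positivity)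
          _ ≤ |C₁| * (X : ℝ) ^ d := mul_le_mul_of_nonneg_left
              (Real.rpow_le_rpow (by linarith) hvX' (by linarith)) (abs_nonneg _)
      have e5 : (X : ℝ) ^ κ ≤ (X : ℝ) ^ d := Real.rpow_le_rpow_of_exponent_le hX1 (by linarith)
      rw [hZ, hC₂]
      linarith
    · rw [hW, mem_filter, mem_Icc]
      exact ⟨⟨hv1, hvX⟩, ht.trans e1⟩
  have hTc : ∀ t : T, ((W t).card : ℝ) ≤ (2 / a + 1) * (X : ℝ) ^ κ := by
    intro t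
    have h0 : (0 : ℝ) ≤ 2 * (X : ℝ) ^ κ / a := by positivity
    rcases (W t).eq_empty_or_nonempty with he | he
    · rw [he]
      simp only [card_empty, Nat.cast_zero]
      positivity
    · obtain ⟨v0, hv0⟩ : ∃ v0, v0 = (W t).min' he := ⟨_, rfl⟩
      have hv0m : v0 ∈ W t := by rw [hv0]; exact min'_mem _ _
      have hs' : W t ⊆ Icc v0 (v0 + ⌊2 * (X : ℝ) ^ κ / a⌋₊) := by
        intro v hv
        have h1 : v0 ≤ v := by rw [hv0]; exact min'_le _ _ hv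
        rw [mem_Icc]
        refine ⟨h1, ?_⟩
        rw [hW, mem_filter, mem_Icc] at hv hv0m
        have h2 := abs_le.1 hv.2
        have h3 := abs_le.1 hv0m.2
        have h4 : ((v - v0 : ℕ) : ℝ) ≤ 2 * (X : ℝ) ^ κ / a := by
          rw [le_div_iff₀ ha]
          have := step_sum hstep hv0m.1.1 h1
          linarith [h2.1, h3.2]
        have := Nat.le_floor h4
        omega
      have h5 := card_le_card hs'
      rw [Nat.card_Icc] at h5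
      have h6 : (((W t).card : ℕ) : ℝ) ≤ (⌊2 * (X : ℝ) ^ κ / a⌋₊ : ℝ) + 1 := by
        have : (W t).card ≤ ⌊2 * (X : ℝ) ^ κ / a⌋₊ + 1 := by omega
        exact_mod_cast this
      have h7 := Nat.floor_le h0
      calc ((W t).card : ℝ) ≤ (⌊2 * (X : ℝ) ^ κ / a⌋₊ : ℝ) + 1 := h6
        _ ≤ 2 * (X : ℝ) ^ κ / a + (X : ℝ) ^ κ := by linarith
        _ = (2 / a + 1) * (X : ℝ) ^ κ := by ring
  have h1 : (((Icc 1 X).filter (fun v => v ∈ NearG S h G κ)).card : ℝ) ≤ ∑ t ∈ hfin.toFinset, ((W t).card : ℝ) := by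
    have := (card_le_card hsub).trans card_biUnion_le
    exact_mod_cast this
  refine h1.trans ((sum_le_sum (fun t _ => hTc t)).trans ?_)
  rw [sum_const, nsmul_eq_mul, ← Set.ncard_eq_toFinset_card _ hfin]
  have h3 : Z ^ s = C₂ ^ s * (X : ℝ) ^ (d * s) := by
    rw [hZ, Real.mul_rpow (by positivity) (by positivity), ← Real.rpow_mul (by positivity)]
  calc ({t | t ∈ S ∧ h t ≤ Z}.ncard : ℝ) * ((2 / a + 1) * (X : ℝ) ^ κ)
      ≤ (|C| * (C₂ ^ s * (X : ℝ) ^ (d * s))) * ((2 / a + 1) * (X : ℝ) ^ κ) := by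
        apply mul_le_mul_of_nonneg_right _ (by positivity)
        rw [← h3]
        exact hcard.trans (mul_le_mul_of_nonneg_right (le_abs_self _) (by positivity))
    _ = (|C| * C₂ ^ s * (2 / a + 1)) * ((X : ℝ) ^ (d * s) * (X : ℝ) ^ κ) := by ring
    _ = _ := by rw [← Real.rpow_add (by linarith)]

/-- **Uniform tool.** `N₀` depends on the set of exceptions only through `C` and `s`. -/
theorem keep_windows_unif {T : Type*} (h : T → ℝ) {f : ℕ → ℕ} (hf : LM f) {G : ℕ → ℝ} {d : ℝ}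
    (hG : Expanding G d) {s κ : ℝ} (hs : 0 ≤ s) (hκ : 0 ≤ κ) (h1 : d * s + κ < 1) (C : ℝ) (A : ℕ) :
    ∃ N₀ : ℕ, ∀ S : Set T, (∀ X : ℝ, 1 ≤ X →
      {t | t ∈ S ∧ h t ≤ X}.Finite ∧ ({t | t ∈ S ∧ h t ≤ X}.ncard : ℝ) ≤ C * X ^ s) → ∀ N : ℕ, N₀ ≤ N →
      ({m : ℕ | 1 ≤ m ∧ m ≤ N ∧ ∃ t ∈ S, |h t - G (f m)| ≤ (f m : ℝ) ^ κ}.ncard : ℝ) ≤ N / Real.log N ^ A := by
  have hd := hG.one_le
  have hds : 0 ≤ d * s := by positivity
  obtain ⟨K, hK⟩ := nearG_count_unif h hG hs hκ (by linarith) C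
  obtain ⟨N₀, hN₀⟩ := avoid hf (θ := d * s + κ) (by positivity) h1 K A
  refine ⟨N₀, fun S hS N hN => ?_⟩
  have h3 := hN₀ (NearG S h G κ) (hK S hS) N hN
  refine le_trans (le_of_eq ?_) h3
  congr 1
  rw [← Set.ncard_coe_finset]
  congr 1
  ext m
  simp only [coe_filter, mem_Icc, Set.mem_ofPred_eq, NearG]
  tauto

/-- the same for a property of natural numbers: `N₀` does not depend on the property -/
theorem keep_good_nat_unif {f : ℕ → ℕ} (hf : LM f) {G : ℕ → ℝ} {d : ℝ}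
    (hG : Expanding G d) {s κ : ℝ} (hs : 0 ≤ s) (hκ : 0 ≤ κ) (h1 : d * s + κ < 1) (C : ℝ) (A : ℕ) :
    ∃ N₀ : ℕ, ∀ Bad : ℕ → Prop, (∀ X : ℕ, 1 ≤ X →
      ({t : ℕ | 1 ≤ t ∧ t ≤ X ∧ Bad t}.ncard : ℝ) ≤ C * (X : ℝ) ^ s) → ∀ N : ℕ, N₀ ≤ N →
      ({m : ℕ | 1 ≤ m ∧ m ≤ N ∧ ∃ n : ℕ, 1 ≤ n ∧ |(n : ℝ) - G (f m)| ≤ (f m : ℝ) ^ κ ∧ Bad n}.ncard : ℝ) ≤
        N / Real.log N ^ A := by
  obtain ⟨N₀, hN₀⟩ := keep_windows_unif (fun t : ℕ => (t : ℝ)) hf hG hs hκ h1 |C| A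
  refine ⟨N₀, fun Bad hB N hN => ?_⟩
  have h2 := hN₀ {t : ℕ | 1 ≤ t ∧ Bad t} (fun X hX => ?_) N hN
  · refine le_trans (le_of_eq ?_) h2
    congr 2
    ext m
    simp only [Set.mem_ofPred_eq]
    constructor
    · rintro ⟨a1, a2, n, a3, a4, a5⟩
      exact ⟨a1, a2, n, ⟨a3, a5⟩, a4⟩
    · rintro ⟨a1, a2, n, ⟨a3, a5⟩, a4⟩
      exact ⟨a1, a2, n, a3, a4, a5⟩
  · have hX1 : 1 ≤ ⌊X⌋₊ := Nat.le_floor (by exact_mod_cast hX)
    have hset : {t : ℕ | t ∈ {t : ℕ | 1 ≤ t ∧ Bad t} ∧ (t : ℝ) ≤ X} = {t : ℕ | 1 ≤ t ∧ t ≤ ⌊X⌋₊ ∧ Bad t} := by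
      ext t
      simp only [Set.mem_ofPred_eq]
      constructor
      · rintro ⟨⟨a1, a2⟩, a3⟩
        exact ⟨a1, Nat.le_floor a3, a2⟩
      · rintro ⟨a1, a2, a3⟩
        exact ⟨⟨a1, a3⟩, (Nat.le_floor_iff (by linarith)).1 a2⟩
    rw [hset]
    refine ⟨(Set.finite_Icc 1 ⌊X⌋₊).subset fun t ht => ⟨ht.1, ht.2.1⟩, ?_⟩
    refine (hB _ hX1).trans ?_
    calc C * ((⌊X⌋₊ : ℕ) : ℝ) ^ s ≤ |C| * ((⌊X⌋₊ : ℕ) : ℝ) ^ s :=
          mul_le_mul_of_nonneg_right (le_abs_self _) (by positivity)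
      _ ≤ |C| * X ^ s := mul_le_mul_of_nonneg_left
          (Real.rpow_le_rpow (Nat.cast_nonneg _) (Nat.floor_le (by linarith)) hs) (abs_nonneg _)

end Pool.Agent.N760.TG
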